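import Pool.Agent.H4.AntiTree

set_option autoImplicit false

open Filter Topology

namespace Pool.Agent.Results.MP_22f26a_co.Dense

/-- The statement fails even in the dense regime `k = n - 2`: there is a sublinear `g` such that
for every large odd `k` some oriented graph on `n = k + 2` vertices with minimum semidegree
greater than `k / 2` misses a balanced antidirected `k`-edge tree of maximum degree at most
`g n`. -/
theorem result : ∃ g : ℕ → ℕ, Tendsto (fun n : ℕ => (g n : ℝ) / (n : ℝ)) atTop (𝓝 0) ∧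
    ∃ n0 : ℕ, ∀ k : ℕ, n0 ≤ k → Odd k →
    ∃ D : Digraph (Fin (k + 2)), (∀ v, ¬ D.Adj v v) ∧ (∀ u v, D.Adj u v → ¬ D.Adj v u) ∧
      (∀ v, k < 2 * ({w | D.Adj v w} : Set (Fin (k + 2))).ncard ∧
        k < 2 * ({w | D.Adj w v} : Set (Fin (k + 2))).ncard) ∧
      ∃ T : Fin (k + 1) → Fin (k + 1) → Prop, (SimpleGraph.fromRel T).IsTree ∧
        (∀ v, ¬ ((∃ a, T a v) ∧ (∃ b, T v b))) ∧
        ({v : Fin (k + 1) | ∃ b, T v b} : Set (Fin (k + 1))).ncard =
          ({v : Fin (k + 1) | ∃ a, T a v} : Set (Fin (k + 1))).ncard ∧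
        (∀ v, ({w : Fin (k + 1) | T v w ∨ T w v} : Set (Fin (k + 1))).ncard ≤ g (k + 2)) ∧
        ¬ ∃ f : Fin (k + 1) → Fin (k + 2), Function.Injective f ∧
          ∀ a b, T a b → D.Adj (f a) (f b) :=
  Pool.Agent.H4.Tourn.exists_g

end Pool.Agent.Results.MP_22f26a_co.Dense
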